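import Pool.Agent.H370R2.Final
import Pool.Agent.H370R2.DirGood

/-!
# Simple critical zeros of zeta beyond the Montgomery-Taylor threshold

Unconditionally there is `c > 2 - c_MT⁻¹` with `N_s(T,2T) ≥ (c - o(T)) N(T,2T)` for all `T > 0`.

Idea of the proof.  Put the positive definite kernel `φ(z) = κ(Λ z) exp(-z²/8)` (with `κ` the
transform of the Montgomery-Taylor window) on the points `z = -i (ρ - 1/2)`.  A trace inequality
for the corresponding operator, in which every pair of zeros off the line is compared with a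
negative direction, gives `N_s ≥ 2 N - ∑ φ(z-z')² + (gain)`, the gain coming from any real
symmetric test matrix `Y ≤ 1` on the simple critical zeros.  An explicit formula with a
Gaussian weight and a mean value theorem bound the double sum by `(c_MT⁻¹ + o(1)) N` without any
hypothesis, and triples of simple critical zeros at distance `O(1 / log T)` give a positive gain,
since `κ(a)`, `κ(b)`, `κ(a+b)` never vanish together.
-/

open Filter Topology

namespace Pool.Agent.Results.MP_cb7589_nt.BeyondMT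

/-- the nontrivial zeros of zeta with ordinate in `(T₁, T₂]` -/
def zeros (T₁ T₂ : ℝ) : Set ℂ :=
  {s : ℂ | riemannZeta s = 0 ∧ 0 < s.re ∧ s.re < 1 ∧ T₁ < s.im ∧ s.im ≤ T₂}

/-- the number of nontrivial zeros with ordinate in `(T₁, T₂]`, counted with multiplicity -/
noncomputable def N (T₁ T₂ : ℝ) : ℕ := ∑ᶠ s ∈ zeros T₁ T₂, analyticOrderNatAt riemannZeta s

/-- the number of simple zeros on the critical line with ordinate in `(T₁, T₂]` -/
noncomputable def Ns (T₁ T₂ : ℝ) : ℕ :=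
  {s : ℂ | s ∈ zeros T₁ T₂ ∧ s.re = 1 / 2 ∧ analyticOrderNatAt riemannZeta s = 1}.ncard

/-- the Montgomery-Taylor constant -/
noncomputable def cMT : ℝ :=
  Real.sqrt 2 * Real.tan (1 / Real.sqrt 2) / (1 + Real.tan (1 / Real.sqrt 2) / Real.sqrt 2)

theorem zeros_eq (T₁ T₂ : ℝ) : zeros T₁ T₂ = H370.zset riemannZeta T₁ T₂ := by
  ext s
  simp only [zeros, H370.zset, Set.mem_ofPred_eq]
  tauto

/-- the sets of zeros that are counted are finite -/
theorem zeros_finite (T₁ T₂ : ℝ) (h : 0 < T₁) : (zeros T₁ T₂).Finite := by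
  rw [zeros_eq]
  exact H370.zset_finite' H370.good_zeta T₁ T₂ h

theorem N_eq (T₁ T₂ : ℝ) : N T₁ T₂ = H370.NN riemannZeta T₁ T₂ := by
  unfold N H370.NN H370.mult
  rw [zeros_eq]

theorem Ns_eq (T₁ T₂ : ℝ) : Ns T₁ T₂ = H370.Ns riemannZeta T₁ T₂ := by
  unfold Ns H370.Ns H370.mult
  rw [zeros_eq]

theorem result : ∃ c : ℝ, 2 - cMT⁻¹ < c ∧ ∃ o : ℝ → ℝ, Tendsto o atTop (𝓝 0) ∧
    ∀ T : ℝ, 0 < T → (c - o T) * (N T (2 * T) : ℝ) ≤ (Ns T (2 * T) : ℝ) := by
  obtain ⟨δ, hδ, H⟩ := H370.main_uniform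
  obtain ⟨T0, hT0⟩ := H riemannZeta H370.good_zeta
  refine ⟨2 - cMT⁻¹ + δ, by linarith, ?_⟩
  refine H370.exists_small_o _ (fun T => (Ns T (2 * T) : ℝ)) (fun T => (N T (2 * T) : ℝ))
    (fun T => Nat.cast_nonneg _) ⟨T0, fun T hT => ?_⟩
  have h1 := (hT0 T hT).1
  have h2 : cMT⁻¹ = H370.cMTinv := H370.cMTinv_eq
  simp only [N_eq, Ns_eq, h2]
  exact h1

end Pool.Agent.Results.MP_cb7589_nt.BeyondMT
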